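import Mathlib

set_option autoImplicit false

open Set Filter Topology Metric MeasureTheory

namespace Pool.Agent.Results.MP_725b87_an.NotPluripolar

/-- complex n-space with its Hermitian norm -/
abbrev Cn (n : ℕ) : Type := EuclideanSpace ℂ (Fin n)

/-- The point z + e^{iθ} w on the boundary circle of the complex disc z + D w. -/
noncomputable def circ {n : ℕ} (z w : Cn n) (θ : ℝ) : Cn n :=
  z + Complex.exp ((θ : ℂ) * Complex.I) • w

/-- Plurisubharmonic functions on an open set Ω, with values in [-∞, ∞).  The function is upper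
semicontinuous on Ω and, for every closed complex disc {z + ζ w, |ζ| ≤ 1} contained in Ω, the
value at the centre z is at most the mean over the boundary circle.  The mean of an upper
semicontinuous function is the infimum of the means of its continuous majorants. -/
def IsPSH {n : ℕ} (Ω : Set (Cn n)) (φ : Cn n → EReal) : Prop :=
  (∀ z ∈ Ω, φ z ≠ ⊤) ∧ UpperSemicontinuousOn φ Ω ∧
  ∀ z w : Cn n, (∀ ζ : ℂ, ‖ζ‖ ≤ 1 → z + ζ • w ∈ Ω) →
    ∀ h : ℝ → ℝ, Continuous h → (∀ θ ∈ Icc 0 (2 * Real.pi), φ (circ z w θ) ≤ (h θ : EReal)) →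
      φ z ≤ (((2 * Real.pi)⁻¹ * ∫ θ in (0 : ℝ)..(2 * Real.pi), h θ : ℝ) : EReal)

/-- A differential test from above for φ at z: a function q of class C^2 on an open neighbourhood
V ⊆ Ω of z with (φ - q)(z) = sup over V of (φ - q). -/
def HasUpperTest {n : ℕ} (Ω : Set (Cn n)) (φ : Cn n → EReal) (z : Cn n) : Prop :=
  ∃ (V : Set (Cn n)) (q : Cn n → ℝ), IsOpen V ∧ V ⊆ Ω ∧ z ∈ V ∧ ContDiffOn ℝ 2 q V ∧
    ∀ y ∈ V, φ y - (q y : EReal) ≤ φ z - (q z : EReal)

/-- The exceptional set E(φ). -/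
def exceptional {n : ℕ} (Ω : Set (Cn n)) (φ : Cn n → EReal) : Set (Cn n) :=
  {z | z ∈ Ω ∧ ¬ HasUpperTest Ω φ z}

/-- A set is pluripolar in Ω if it is contained in {u = -∞} for some plurisubharmonic u on Ω
that is not identically -∞. -/
def Pluripolar {n : ℕ} (Ω E : Set (Cn n)) : Prop :=
  ∃ u : Cn n → EReal, IsPSH Ω u ∧ (∃ z ∈ Ω, u z ≠ ⊥) ∧ ∀ z ∈ E, u z = ⊥

/-! ### Circle means -/

theorem mean_norm_sq {n : ℕ} (b w : Cn n) :
    (2 * Real.pi)⁻¹ * ∫ θ in (0 : ℝ)..(2 * Real.pi), ‖circ b w θ‖ ^ 2 = ‖b‖ ^ 2 + ‖w‖ ^ 2 := by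
  obtain ⟨C, hC⟩ : ∃ C : ℝ, C = ‖b‖ ^ 2 + ‖w‖ ^ 2 := ⟨_, rfl⟩
  rw [← hC]
  have hpt : ∀ θ : ℝ, ‖circ b w θ‖ ^ 2 = C +
      (Real.cos θ * (2 * (inner ℂ b w).re) + Real.sin θ * (-2 * (inner ℂ b w).im)) := by
    intro θ
    unfold circ
    rw [norm_add_sq (𝕜 := ℂ), norm_smul, Complex.norm_exp_ofReal_mul_I, one_mul,
      inner_smul_right]
    have h1 : RCLike.re (Complex.exp ((θ : ℂ) * Complex.I) * inner ℂ b w) =
        Real.cos θ * (inner ℂ b w).re - Real.sin θ * (inner ℂ b w).im := by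
      rw [RCLike.re_eq_complex_re, Complex.mul_re, Complex.exp_ofReal_mul_I_re,
        Complex.exp_ofReal_mul_I_im]
    rw [h1, hC]; ring
  simp_rw [hpt]
  rw [intervalIntegral.integral_add (by simp) (by
    apply Continuous.intervalIntegrable; fun_prop),
    intervalIntegral.integral_add (by apply Continuous.intervalIntegrable; fun_prop)
      (by apply Continuous.intervalIntegrable; fun_prop)]
  rw [intervalIntegral.integral_const, intervalIntegral.integral_mul_const,
    intervalIntegral.integral_mul_const, integral_cos, integral_sin]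
  have : Real.pi ≠ 0 := Real.pi_ne_zero
  simp
  field_simp

theorem circ_continuous {n : ℕ} (z w : Cn n) : Continuous (circ z w) := by
  unfold circ; fun_prop

theorem circ_sub {n : ℕ} (z w a : Cn n) (θ : ℝ) : circ z w θ - a = circ (z - a) w θ := by
  unfold circ; abel

/-! ### The plurisubharmonic function max(|z-a|^2, r^2) -/

/-- the counterexample -/
noncomputable def kink {n : ℕ} (a : Cn n) (r : ℝ) (z : Cn n) : ℝ := max (‖z - a‖ ^ 2) (r ^ 2)

theorem kink_continuous {n : ℕ} (a : Cn n) (r : ℝ) : Continuous (kink a r) := by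
  unfold kink; fun_prop

theorem kink_psh {n : ℕ} (Ω : Set (Cn n)) (a : Cn n) (r : ℝ) :
    IsPSH Ω (fun z => (kink a r z : EReal)) := by
  refine ⟨fun z _ => EReal.coe_ne_top _, ?_, ?_⟩
  · exact (continuous_coe_real_ereal.comp (kink_continuous a r)).upperSemicontinuous.upperSemicontinuousOn _
  · intro z w _ h hh hmaj
    rw [EReal.coe_le_coe_iff]
    have hpi : 0 < 2 * Real.pi := by positivity
    have hmaj' : ∀ θ ∈ Icc 0 (2 * Real.pi), kink a r (circ z w θ) ≤ h θ := by
      intro θ hθ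
      exact EReal.coe_le_coe_iff.1 (hmaj θ hθ)
    have hint : IntervalIntegrable h volume 0 (2 * Real.pi) := hh.intervalIntegrable _ _
    unfold kink at hmaj' ⊢
    apply max_le
    · have h1 : (∫ θ in (0 : ℝ)..(2 * Real.pi), ‖circ (z - a) w θ‖ ^ 2) ≤
          ∫ θ in (0 : ℝ)..(2 * Real.pi), h θ := by
        apply intervalIntegral.integral_mono_on hpi.le _ hint
        · intro θ hθ
          rw [← circ_sub]
          exact (le_max_left _ _).trans (hmaj' θ hθ)
        · apply Continuous.intervalIntegrable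
          exact (circ_continuous _ _).norm.pow 2
      have h2 := mean_norm_sq (z - a) w
      have h3 : (2 * Real.pi)⁻¹ * (∫ θ in (0 : ℝ)..(2 * Real.pi), ‖circ (z - a) w θ‖ ^ 2) ≤
          (2 * Real.pi)⁻¹ * ∫ θ in (0 : ℝ)..(2 * Real.pi), h θ := by gcongr
      nlinarith [sq_nonneg ‖w‖]
    · have h1 : (∫ θ in (0 : ℝ)..(2 * Real.pi), r ^ 2) ≤
          ∫ θ in (0 : ℝ)..(2 * Real.pi), h θ := by
        apply intervalIntegral.integral_mono_on hpi.le (by simp) hint
        intro θ hθ
        exact (le_max_right _ _).trans (hmaj' θ hθ)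
      rw [intervalIntegral.integral_const, smul_eq_mul, sub_zero] at h1
      rw [le_inv_mul_iff₀ hpi]
      exact h1

/-- No upper test function at the points of the sphere |z-a| = r. -/
theorem kink_exceptional {n : ℕ} (Ω : Set (Cn n)) (a : Cn n) (r : ℝ) (hr : 0 < r) (z : Cn n)
    (hz : ‖z - a‖ = r) : ¬ HasUpperTest Ω (fun z => (kink a r z : EReal)) z := by
  rintro ⟨V, q, hV, -, hzV, hq, htest⟩
  have htest' : ∀ y ∈ V, kink a r y - q y ≤ kink a r z - q z := by
    intro y hy
    have := htest y hy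
    rw [← EReal.coe_sub, ← EReal.coe_sub, EReal.coe_le_coe_iff] at this
    exact this
  have hqd : DifferentiableAt ℝ q z :=
    (hq.contDiffAt (hV.mem_nhds hzV)).differentiableAt (by norm_num)
  have hline : HasDerivAt (fun t : ℝ => z + t • (z - a)) (z - a) 0 := by
    have := ((hasDerivAt_id (0 : ℝ)).smul_const (z - a)).const_add z
    simpa using this
  have hg : HasDerivAt (fun t : ℝ => q (z + t • (z - a))) (fderiv ℝ q z (z - a)) 0 := by
    have h1 : HasFDerivAt q (fderiv ℝ q z) (z + (0 : ℝ) • (z - a)) := by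
      simpa using hqd.hasFDerivAt
    exact h1.comp_hasDerivAt (0 : ℝ) hline
  set D := fderiv ℝ q z (z - a) with hD
  have hmem : ∀ᶠ t : ℝ in 𝓝 0, z + t • (z - a) ∈ V := by
    have hc : Continuous (fun t : ℝ => z + t • (z - a)) := by fun_prop
    have : Tendsto (fun t : ℝ => z + t • (z - a)) (𝓝 0) (𝓝 z) := by simpa using hc.tendsto 0
    exact this.eventually (hV.mem_nhds hzV)
  have hval : ∀ t : ℝ, ‖z + t • (z - a) - a‖ = |1 + t| * r := by
    intro t
    have : z + t • (z - a) - a = (1 + t) • (z - a) := by rw [add_smul, one_smul]; abel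
    rw [this, norm_smul, Real.norm_eq_abs, hz]
  have hkz : kink a r z = r ^ 2 := by unfold kink; rw [hz]; simp
  -- right side: slope at least 2 r^2
  have h1 : 2 * r ^ 2 ≤ D := by
    have ht := hg.tendsto_slope_zero_right
    apply ge_of_tendsto ht
    filter_upwards [hmem.filter_mono nhdsWithin_le_nhds, self_mem_nhdsWithin] with t ht hpos
    have hpos' : 0 < t := hpos
    have h2 := htest' _ ht
    have h3 : ((1 + t) * r) ^ 2 ≤ kink a r (z + t • (z - a)) := by
      unfold kink
      rw [hval, abs_of_pos (by linarith : 0 < 1 + t)]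
      exact le_max_left _ _
    rw [zero_add, smul_eq_mul, le_inv_mul_iff₀ hpos', zero_smul, add_zero]
    rw [hkz] at h2
    nlinarith [mul_pos hpos' hpos', sq_nonneg r, mul_nonneg (sq_nonneg t) (sq_nonneg r)]
  -- left side: slope at most 0
  have h2 : D ≤ 0 := by
    have ht := hg.tendsto_slope_zero_left
    apply le_of_tendsto ht
    filter_upwards [hmem.filter_mono nhdsWithin_le_nhds, self_mem_nhdsWithin] with t ht hneg
    have hneg' : t < 0 := hneg
    have h2 := htest' _ ht
    have h3 : r ^ 2 ≤ kink a r (z + t • (z - a)) := by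
      unfold kink; exact le_max_right _ _
    rw [zero_add, smul_eq_mul, inv_mul_eq_div, div_le_iff_of_neg hneg', zero_smul, add_zero]
    rw [hkz] at h2
    linarith
  have : 0 < r ^ 2 := by positivity
  linarith

/-! ### Maximum principle -/

theorem eq_bot_of_sphere {n : ℕ} (hn : 1 ≤ n) (Ω : Set (Cn n)) (u : Cn n → EReal) (hu : IsPSH Ω u)
    (a : Cn n) (r : ℝ) (hr : 0 < r) (hsub : closedBall a r ⊆ Ω)
    (hbd : ∀ z, ‖z - a‖ = r → u z = ⊥) : ∀ z ∈ closedBall a r, u z = ⊥ := by
  obtain ⟨htop, husc, hmean⟩ := hu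
  set F : Cn n → EReal := fun z => u z + ((‖z - a‖ ^ 2 : ℝ) : EReal) with hF
  have hFusc : UpperSemicontinuousOn F (closedBall a r) := by
    apply UpperSemicontinuousOn.add' (husc.mono hsub)
    · have : Continuous (fun z : Cn n => ((‖z - a‖ ^ 2 : ℝ) : EReal)) :=
        continuous_coe_real_ereal.comp (by fun_prop)
      exact this.upperSemicontinuous.upperSemicontinuousOn _
    · intro z _
      apply EReal.continuousAt_add
      · right; exact EReal.coe_ne_bot _
      · right; exact EReal.coe_ne_top _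
  obtain ⟨z0, hz0, hmax⟩ := hFusc.exists_isMaxOn ⟨a, mem_closedBall_self hr.le⟩
    (isCompact_closedBall a r)
  have hmax' : ∀ z ∈ closedBall a r, F z ≤ F z0 := fun z hz => hmax hz
  by_cases hbot : u z0 = ⊥
  · intro z hz
    have h1 := hmax' z hz
    simp only [hF, hbot, EReal.bot_add, le_bot_iff] at h1
    by_contra hne
    have hcoe : u z = ((u z).toReal : EReal) := (EReal.coe_toReal (htop z (hsub hz)) hne).symm
    rw [hcoe, ← EReal.coe_add] at h1
    exact EReal.coe_ne_bot _ h1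
  · exfalso
    have hcoe : u z0 = ((u z0).toReal : EReal) :=
      (EReal.coe_toReal (htop z0 (hsub hz0)) hbot).symm
    set c := (u z0).toReal with hc
    have hlt : ‖z0 - a‖ < r := by
      have h1 : ‖z0 - a‖ ≤ r := by rw [← dist_eq_norm]; exact hz0
      rcases lt_or_eq_of_le h1 with h | h
      · exact h
      · exact absurd (hbd z0 h) hbot
    set e : Cn n := EuclideanSpace.single ⟨0, hn⟩ 1 with he
    have hen : ‖e‖ = 1 := by simp [he]
    set ρ : ℝ := r - ‖z0 - a‖ with hρ
    have hρpos : 0 < ρ := by linarith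
    set w : Cn n := (ρ : ℂ) • e with hw
    have hwn : ‖w‖ = ρ := by
      rw [hw, norm_smul, hen, mul_one, Complex.norm_real, Real.norm_eq_abs, abs_of_pos hρpos]
    have hin : ∀ ζ : ℂ, ‖ζ‖ ≤ 1 → z0 + ζ • w ∈ closedBall a r := by
      intro ζ hζ
      rw [mem_closedBall, dist_eq_norm]
      calc ‖z0 + ζ • w - a‖ = ‖(z0 - a) + ζ • w‖ := by congr 1; abel
        _ ≤ ‖z0 - a‖ + ‖ζ • w‖ := norm_add_le _ _
        _ ≤ ‖z0 - a‖ + ρ := by
          rw [norm_smul, hwn]
          have : ‖ζ‖ * ρ ≤ 1 * ρ := by gcongr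
          linarith
        _ = r := by rw [hρ]; ring
    have hcirc : ∀ θ : ℝ, circ z0 w θ ∈ closedBall a r := by
      intro θ
      apply hin
      rw [Complex.norm_exp_ofReal_mul_I]
    have hkey := hmean z0 w (fun ζ hζ => hsub (hin ζ hζ))
      (fun θ => (c + ‖z0 - a‖ ^ 2) - ‖circ (z0 - a) w θ‖ ^ 2)
      (continuous_const.sub ((circ_continuous _ _).norm.pow 2)) (by
        intro θ _
        have h1 := hmax' _ (hcirc θ)
        simp only [hF] at h1
        rw [circ_sub, hcoe, ← EReal.coe_add] at h1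
        by_cases hb : u (circ z0 w θ) = ⊥
        · rw [hb]; exact bot_le
        · have hcoe2 : u (circ z0 w θ) = ((u (circ z0 w θ)).toReal : EReal) :=
            (EReal.coe_toReal (htop _ (hsub (hcirc θ))) hb).symm
          rw [hcoe2, ← EReal.coe_add, EReal.coe_le_coe_iff] at h1
          rw [hcoe2, EReal.coe_le_coe_iff]
          linarith)
    rw [hcoe, EReal.coe_le_coe_iff] at hkey
    have h1 : (2 * Real.pi)⁻¹ * ∫ θ in (0 : ℝ)..(2 * Real.pi),
        ((c + ‖z0 - a‖ ^ 2) - ‖circ (z0 - a) w θ‖ ^ 2) =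
        (c + ‖z0 - a‖ ^ 2) - (‖z0 - a‖ ^ 2 + ‖w‖ ^ 2) := by
      rw [intervalIntegral.integral_sub (by simp)
        (by apply Continuous.intervalIntegrable; exact (circ_continuous _ _).norm.pow 2),
        mul_sub, mean_norm_sq, intervalIntegral.integral_const, smul_eq_mul, sub_zero]
      have : Real.pi ≠ 0 := Real.pi_ne_zero
      field_simp
    rw [h1, hwn] at hkey
    have : 0 < ρ ^ 2 := by positivity
    linarith

/-! ### Propagation of the value -∞ in a connected open set -/

theorem eq_bot_propagate {n : ℕ} (Ω : Set (Cn n)) (hΩ : IsOpen Ω) (hconn : IsPreconnected Ω)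
    (u : Cn n → EReal) (hu : IsPSH Ω u) (z0 : Cn n) (r : ℝ) (hr : 0 < r) (hz0 : ball z0 r ⊆ Ω)
    (hbot : ∀ z ∈ ball z0 r, u z = ⊥) : ∀ z ∈ Ω, u z = ⊥ := by
  obtain ⟨htop, husc, hmean⟩ := hu
  set V : Set (Cn n) := {z | ∃ ρ > 0, ball z ρ ⊆ Ω ∧ ∀ y ∈ ball z ρ, u y = ⊥} with hV
  have hVopen : IsOpen V := by
    rw [Metric.isOpen_iff]
    rintro z ⟨ρ, hρ, hρΩ, hρu⟩
    refine ⟨ρ / 2, by positivity, ?_⟩
    intro y hy
    have hsub : ball y (ρ / 2) ⊆ ball z ρ := by
      apply ball_subset_ball'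
      have : dist y z < ρ / 2 := hy
      linarith
    exact ⟨ρ / 2, by positivity, hsub.trans hρΩ, fun x hx => hρu x (hsub hx)⟩
  have hVne : (Ω ∩ V).Nonempty :=
    ⟨z0, hz0 (mem_ball_self hr), r, hr, hz0, hbot⟩
  have hVcl : closure V ∩ Ω ⊆ V := by
    rintro b ⟨hbcl, hbΩ⟩
    obtain ⟨ε, hε, hεΩ⟩ := Metric.isOpen_iff.1 hΩ b hbΩ
    set ρ := ε / 2 with hρdef
    have hρ : 0 < ρ := by positivity
    obtain ⟨v, hvV, hvb⟩ := Metric.mem_closure_iff.1 hbcl (ρ / 2) (by positivity)
    obtain ⟨η, hη, hηΩ, hηu⟩ := hvV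
    refine ⟨ρ / 2, by positivity, (ball_subset_ball (by linarith)).trans hεΩ, ?_⟩
    intro b' hb'
    have hb'b : dist b' b < ρ / 2 := hb'
    set w : Cn n := v - b' with hw
    have hwn : ‖w‖ < ρ := by
      rw [hw, ← dist_eq_norm]
      calc dist v b' ≤ dist v b + dist b b' := dist_triangle _ _ _
        _ < ρ / 2 + ρ / 2 := by rw [dist_comm v b, dist_comm b b']; linarith
        _ = ρ := by ring
    have hin : ∀ ζ : ℂ, ‖ζ‖ ≤ 1 → b' + ζ • w ∈ Ω := by
      intro ζ hζ
      apply hεΩ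
      rw [mem_ball, dist_eq_norm]
      calc ‖b' + ζ • w - b‖ = ‖(b' - b) + ζ • w‖ := by congr 1; abel
        _ ≤ ‖b' - b‖ + ‖ζ • w‖ := norm_add_le _ _
        _ ≤ ‖b' - b‖ + 1 * ‖w‖ := by rw [norm_smul]; gcongr
        _ < ε := by rw [← dist_eq_norm]; linarith
    have hcirc : ∀ θ : ℝ, circ b' w θ ∈ Ω := by
      intro θ
      apply hin
      rw [Complex.norm_exp_ofReal_mul_I]
    -- upper bound on the circle
    obtain ⟨M, hM⟩ : ∃ M : ℝ, ∀ θ ∈ Icc 0 (2 * Real.pi), u (circ b' w θ) ≤ (M : EReal) := by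
      have hK : IsCompact (circ b' w '' Icc 0 (2 * Real.pi)) :=
        isCompact_Icc.image (circ_continuous _ _)
      have hKΩ : circ b' w '' Icc 0 (2 * Real.pi) ⊆ Ω := by
        rintro _ ⟨θ, _, rfl⟩; exact hcirc θ
      have hne : (circ b' w '' Icc 0 (2 * Real.pi)).Nonempty :=
        ⟨_, 0, ⟨le_refl _, by positivity⟩, rfl⟩
      obtain ⟨m, hmK, hmax⟩ := (husc.mono hKΩ).exists_isMaxOn hne hK
      refine ⟨(u m).toReal, fun θ hθ => ?_⟩
      exact (hmax ⟨θ, hθ, rfl⟩ : u (circ b' w θ) ≤ u m).trans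
        (EReal.le_coe_toReal (htop m (hKΩ hmK)))
    -- an arc inside the region where u = -∞
    obtain ⟨δ, hδ, hδu⟩ : ∃ δ > 0, ∀ θ : ℝ, 0 ≤ θ → θ < δ → u (circ b' w θ) = ⊥ := by
      have h0 : circ b' w 0 = v := by simp [circ, hw]
      have hc : ContinuousAt (circ b' w) 0 := (circ_continuous _ _).continuousAt
      rw [Metric.continuousAt_iff] at hc
      obtain ⟨δ, hδ, h⟩ := hc η hη
      refine ⟨δ, hδ, fun θ h0θ hθ => hηu _ ?_⟩
      have := h (x := θ) (by rw [Real.dist_eq, sub_zero, abs_of_nonneg h0θ]; exact hθ)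
      rw [h0] at this
      exact this
    set g : ℝ → ℝ := fun θ => max 0 (1 - θ / δ) with hg
    have hgc : Continuous g := by simp only [hg]; fun_prop
    have hpi : 0 < 2 * Real.pi := by positivity
    have hgpos : 0 < ∫ θ in (0 : ℝ)..(2 * Real.pi), g θ := by
      refine intervalIntegral.integral_pos hpi hgc.continuousOn (fun θ _ => le_max_left _ _)
        ⟨0, ⟨le_refl _, hpi.le⟩, ?_⟩
      simp [hg]
    by_contra hne
    have hcoe : u b' = ((u b').toReal : EReal) :=
      (EReal.coe_toReal (htop b' (hεΩ (by rw [mem_ball]; linarith))) hne).symm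
    set x := (u b').toReal with hx
    set I := (2 * Real.pi)⁻¹ * ∫ θ in (0 : ℝ)..(2 * Real.pi), g θ with hI
    have hIpos : 0 < I := by positivity
    set K : ℝ := (M - x + 1) / I with hKdef
    have hkey := hmean b' w hin (fun θ => M - K * g θ) (by fun_prop) (by
      intro θ hθ
      rcases lt_or_ge θ δ with h | h
      · rw [hδu θ hθ.1 h]; exact bot_le
      · have : g θ = 0 := by
          simp only [hg]
          apply max_eq_left
          have : 1 ≤ θ / δ := by rw [le_div_iff₀ hδ]; linarith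
          linarith
        simp only [this, mul_zero, sub_zero]
        exact hM θ hθ)
    rw [hcoe, EReal.coe_le_coe_iff] at hkey
    have h1 : (2 * Real.pi)⁻¹ * ∫ θ in (0 : ℝ)..(2 * Real.pi), (M - K * g θ) = M - K * I := by
      rw [intervalIntegral.integral_sub (by simp)
        (by apply Continuous.intervalIntegrable; fun_prop), intervalIntegral.integral_const,
        intervalIntegral.integral_const_mul, smul_eq_mul, sub_zero, mul_sub, hI]
      have : Real.pi ≠ 0 := Real.pi_ne_zero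
      field_simp
    have h2 : K * I = M - x + 1 := by rw [hKdef]; field_simp
    rw [h1, h2] at hkey
    linarith
  have hsub := hconn.subset_of_closure_inter_subset hVopen hVne hVcl
  intro z hz
  obtain ⟨ρ, hρ, -, h⟩ := hsub hz
  exact h z (mem_ball_self hρ)

/-- Negative answer to Q2, in every dimension n ≥ 1 and on every domain Ω (in particular on every
bounded pseudoconvex domain): there is a continuous, finite plurisubharmonic function on Ω whose
exceptional set E(φ) is not pluripolar. -/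
theorem result : ∀ n : ℕ, 1 ≤ n → ∀ Ω : Set (Cn n), IsOpen Ω → IsConnected Ω →
    ∃ φ : Cn n → ℝ, Continuous φ ∧ IsPSH Ω (fun z => (φ z : EReal)) ∧
      ¬ Pluripolar Ω (exceptional Ω (fun z => (φ z : EReal))) := by
  intro n hn Ω hΩ hconn
  obtain ⟨a, ha⟩ := hconn.nonempty
  obtain ⟨ε, hε, hεΩ⟩ := Metric.isOpen_iff.1 hΩ a ha
  set r := ε / 2 with hr
  have hrpos : 0 < r := by positivity
  have hsub : closedBall a r ⊆ Ω := (closedBall_subset_ball (by linarith)).trans hεΩ
  refine ⟨kink a r, kink_continuous a r, kink_psh Ω a r, ?_⟩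
  rintro ⟨u, hu, ⟨z1, hz1, hne⟩, hE⟩
  have hsphere : ∀ z, ‖z - a‖ = r → u z = ⊥ := by
    intro z hz
    apply hE
    refine ⟨hsub ?_, kink_exceptional Ω a r hrpos z hz⟩
    rw [mem_closedBall, dist_eq_norm, hz]
  have hball := eq_bot_of_sphere hn Ω u hu a r hrpos hsub hsphere
  exact hne (eq_bot_propagate Ω hΩ hconn.isPreconnected u hu a r hrpos
    (ball_subset_closedBall.trans hsub) (fun z hz => hball z (ball_subset_closedBall hz)) z1 hz1)

end Pool.Agent.Results.MP_725b87_an.NotPluripolar
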